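import Pool.Agent.Y920.UC.Gen

set_option autoImplicit false

open Filter Topology MeasureTheory
open scoped InnerProductSpace ENNReal

namespace Pool.Agent.Y920.UC.Gen

open Pool.Agent.H534R3

variable (H : Type) [NormedAddCommGroup H] [InnerProductSpace ℂ H]

/-- The strong operator topology on the unitary group: the coarsest topology for which all maps
`x ↦ x v`, `v ∈ H`, are continuous. -/
def SOT : TopologicalSpace (H ≃ₗᵢ[ℂ] H) :=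
  TopologicalSpace.induced (fun x : H ≃ₗᵢ[ℂ] H => fun v : H => x v) Pi.topologicalSpace

variable {H}
variable [CompleteSpace H] (e : HilbertBasis ℕ ℂ H)

theorem entry_continuous (m n : ℕ) : @Continuous (H ≃ₗᵢ[ℂ] H) ℝ (SOT H) _ (fun x => r e x m n) := by
  letI : TopologicalSpace (H ≃ₗᵢ[ℂ] H) := SOT H
  have h1 : @Continuous (H ≃ₗᵢ[ℂ] H) (H → H) (SOT H) _ (fun x : H ≃ₗᵢ[ℂ] H => fun v : H => x v) :=
    continuous_induced_dom
  have h2 : @Continuous (H ≃ₗᵢ[ℂ] H) H (SOT H) _ (fun x : H ≃ₗᵢ[ℂ] H => x (e n)) :=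
    (continuous_apply (e n)).comp h1
  have h4 : Continuous (fun h : H => ‖⟪e m, h⟫_ℂ‖ ^ 2) :=
    ((continuous_const.inner continuous_id).norm).pow 2
  exact h4.comp h2

theorem select_compact (K : Set (H ≃ₗᵢ[ℂ] H)) (hK : @IsCompact (H ≃ₗᵢ[ℂ] H) (SOT H) K) :
    ∃ a s : ℕ → ℕ, a 0 = 1 ∧ (∀ i, a i ≤ s i ∧ s i < a (i + 1) ∧ a i + 2 ≤ a (i + 1)) ∧
      ∀ x ∈ K, ∀ i, Sel.Good (r e) (a i) (s i) (a (i + 1)) ((1 / 64 * (1 / 4) ^ i) ^ 2) x := by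
  let τ : TopologicalSpace K :=
    @instTopologicalSpaceSubtype (H ≃ₗᵢ[ℂ] H) (fun x => x ∈ K) (SOT H)
  have hc : @CompactSpace K τ := (@isCompact_iff_compactSpace (H ≃ₗᵢ[ℂ] H) (SOT H) K).1 hK
  obtain ⟨a, s, h0, h1, h2⟩ := @select K τ hc (fun x m n => r e x.1 m n)
    (fun m n => (@Continuous.comp K (H ≃ₗᵢ[ℂ] H) ℝ τ (SOT H) _ _ _ (entry_continuous e m n)
      (@continuous_subtype_val (H ≃ₗᵢ[ℂ] H) (SOT H) (fun x => x ∈ K)))) (fun x m n => sq_nonneg _)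
    (fun x n => r_sum1 e x.1 n) (fun x n => r_sum2 e x.1 n)
    (fun i => (1 / 64 * (1 / 4) ^ i) ^ 2) (fun i => by positivity)
  exact ⟨a, s, h0, h1, fun x hx i => h2 ⟨x, hx⟩ i⟩

theorem select_measure {X : Type} [MeasurableSpace X] (μ : Measure X) [IsProbabilityMeasure μ]
    (r : X → ℕ → ℕ → ℝ)
    (hr : ∀ m n, Measurable fun x => r x m n) (h0 : ∀ x m n, 0 ≤ r x m n)
    (h1 : ∀ x n, HasSum (fun m => r x m n) 1) (h2 : ∀ x n, HasSum (fun m => r x n m) 1)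
    (δ : ℕ → ℝ) (hδ : ∀ i, 0 < δ i) (η : ℝ≥0∞) (hη : η ≠ 0) :
    ∃ a s : ℕ → ℕ, a 0 = 1 ∧ (∀ i, a i ≤ s i ∧ s i < a (i + 1) ∧ a i + 2 ≤ a (i + 1)) ∧
      1 - η ≤ μ {x | ∀ i, Sel.Good r (a i) (s i) (a (i + 1)) (δ i) x} := by
  obtain ⟨ε, hε, hεs⟩ := ENNReal.exists_pos_sum_of_countable (ε := η) hη ℕ
  have hst := fun (i a : ℕ) => Sel.step μ r hr h0 h1 h2 (δ i) (hδ i) (ε i)
    (ENNReal.coe_pos.2 (hε i)) a
  choose S A hS1 hS2 hS3 hS4 using hst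
  set a : ℕ → ℕ := fun n => Nat.rec 1 (fun i ai => A i ai) n with ha
  refine ⟨a, fun i => S i (a i), rfl, fun i => ⟨hS1 _ _, hS2 _ _, hS3 _ _⟩, ?_⟩
  have hcov : (Set.univ : Set X) ⊆
      {x | ∀ i, Sel.Good r (a i) (S i (a i)) (a (i + 1)) (δ i) x} ∪
      ⋃ i, {x | ¬ Sel.Good r (a i) (S i (a i)) (a (i + 1)) (δ i) x} := by
    intro x _
    by_cases hx : ∀ i, Sel.Good r (a i) (S i (a i)) (a (i + 1)) (δ i) x
    · exact Or.inl hx
    · push Not at hx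
      obtain ⟨i, hi⟩ := hx
      exact Or.inr (Set.mem_iUnion.2 ⟨i, hi⟩)
  have hle : (1 : ℝ≥0∞) ≤
      μ {x | ∀ i, Sel.Good r (a i) (S i (a i)) (a (i + 1)) (δ i) x} + ∑' i, (ε i : ℝ≥0∞) := by
    calc (1 : ℝ≥0∞) = μ Set.univ := measure_univ.symm
      _ ≤ _ := measure_mono hcov
      _ ≤ _ := measure_union_le _ _
      _ ≤ _ := by
          refine add_le_add le_rfl ((measure_iUnion_le _).trans ?_)
          exact ENNReal.tsum_le_tsum fun i => hS4 i (a i)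
  exact tsub_le_iff_right.2 (hle.trans (add_le_add le_rfl hεs.le))

end Pool.Agent.Y920.UC.Gen
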