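import Pool.Agent.H534R3.Sel

/-! # Selection of blocks, uniformly over a compact space (Dini) -/

set_option autoImplicit false

open Filter Topology

namespace Pool.Agent.Y920.UC

open Pool.Agent.H534R3

variable {X : Type} [TopologicalSpace X] [CompactSpace X]

theorem unif (f : ℕ → X → ℝ) (hf : ∀ n, Continuous (f n)) (h0 : ∀ n x, 0 ≤ f n x)
    (hs : ∀ x, HasSum (fun n => f n x) 1) (δ : ℝ) (hδ : 0 < δ) :
    ∀ᶠ n in atTop, ∀ x, 1 - δ ≤ ∑ m ∈ Finset.range n, f m x := by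
  have h := Monotone.tendstoUniformly_of_forall_tendsto
    (F := fun (n : ℕ) (x : X) => ∑ m ∈ Finset.range n, f m x) (f := fun _ => (1 : ℝ))
    (fun n => continuous_finsetSum _ fun m _ => hf m)
    (fun n n' hnn x => Finset.sum_le_sum_of_subset_of_nonneg
      (Finset.range_subset_range.2 hnn) fun m _ _ => h0 m x)
    continuous_const (fun x => (hs x).tendsto_sum_nat)
  rw [Metric.tendstoUniformly_iff] at h
  filter_upwards [h δ hδ] with n hn x
  have := hn x
  rw [Real.dist_eq, abs_lt] at this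
  linarith [this.2]

theorem unif_term (f : ℕ → X → ℝ) (hf : ∀ n, Continuous (f n)) (h0 : ∀ n x, 0 ≤ f n x)
    (hs : ∀ x, HasSum (fun n => f n x) 1) (δ : ℝ) (hδ : 0 < δ) :
    ∀ᶠ n in atTop, ∀ x, f n x ≤ δ := by
  filter_upwards [unif f hf h0 hs δ hδ] with n hn x
  have h1 := hn x
  have h2 : ∑ m ∈ Finset.range (n + 1), f m x ≤ 1 :=
    sum_le_hasSum _ (fun m _ => h0 m x) (hs x)
  rw [Finset.sum_range_succ] at h2
  linarith

theorem step (r : X → ℕ → ℕ → ℝ)
    (hr : ∀ m n, Continuous fun x => r x m n) (h0 : ∀ x m n, 0 ≤ r x m n)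
    (h1 : ∀ x n, HasSum (fun m => r x m n) 1) (h2 : ∀ x n, HasSum (fun m => r x n m) 1)
    (δ : ℝ) (hδ : 0 < δ) (a : ℕ) :
    ∃ s a', a ≤ s ∧ s < a' ∧ a + 2 ≤ a' ∧ ∀ x, Sel.Good r a s a' δ x := by
  have hη : 0 < δ / (4 * (a + 1)) := by positivity
  have e1 : ∀ m ∈ Finset.range a, ∀ᶠ s in atTop, ∀ x : X, r x m s ≤ δ / (4 * (a + 1)) :=
    fun m _ => unif_term (fun s x => r x m s) (fun s => hr m s) (fun s x => h0 x m s)
      (fun x => h2 x m) _ hη
  have e2 : ∀ m ∈ Finset.range a, ∀ᶠ s in atTop, ∀ x : X, r x s m ≤ δ / (4 * (a + 1)) :=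
    fun m _ => unif_term (fun s x => r x s m) (fun s => hr s m) (fun s x => h0 x s m)
      (fun x => h1 x m) _ hη
  obtain ⟨s, hs1, hs2, hs3⟩ := (((Finset.eventually_all _).2 e1).and
    (((Finset.eventually_all _).2 e2).and (eventually_ge_atTop a))).exists
  obtain ⟨a', ha1, ha2, ha3, ha4⟩ := ((unif (fun m x => r x m s) (fun m => hr m s)
    (fun m x => h0 x m s) (fun x => h1 x s) (δ / 2) (by positivity)).and
    ((unif (fun m x => r x s m) (fun m => hr s m)
    (fun m x => h0 x s m) (fun x => h2 x s) (δ / 2) (by positivity)).and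
    ((eventually_gt_atTop s).and (eventually_ge_atTop (a + 2))))).exists
  refine ⟨s, a', hs3, ha3, ha4, fun x => ?_⟩
  have f1 : ∑ m ∈ Finset.range a', r x m s =
      ∑ m ∈ Finset.range a, r x m s + ∑ m ∈ Finset.Ico a a', r x m s :=
    (Finset.sum_range_add_sum_Ico _ (by omega)).symm
  have f2 : ∑ m ∈ Finset.range a', r x s m =
      ∑ m ∈ Finset.range a, r x s m + ∑ m ∈ Finset.Ico a a', r x s m :=
    (Finset.sum_range_add_sum_Ico _ (by omega)).symm
  have hb : (a : ℝ) * (δ / (4 * (a + 1))) ≤ δ / 4 := by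
    rw [mul_div_assoc', div_le_div_iff₀ (by positivity) (by positivity)]
    nlinarith
  have g1 : ∑ m ∈ Finset.range a, r x m s ≤ δ / 4 := by
    refine (Finset.sum_le_card_nsmul _ _ _ fun m hm => hs1 m hm x).trans ?_
    simpa using hb
  have g2 : ∑ m ∈ Finset.range a, r x s m ≤ δ / 4 := by
    refine (Finset.sum_le_card_nsmul _ _ _ fun m hm => hs2 m hm x).trans ?_
    simpa using hb
  have k1 := ha1 x
  have k2 := ha2 x
  constructor
  · linarith
  · linarith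

theorem select (r : X → ℕ → ℕ → ℝ)
    (hr : ∀ m n, Continuous fun x => r x m n) (h0 : ∀ x m n, 0 ≤ r x m n)
    (h1 : ∀ x n, HasSum (fun m => r x m n) 1) (h2 : ∀ x n, HasSum (fun m => r x n m) 1)
    (δ : ℕ → ℝ) (hδ : ∀ i, 0 < δ i) :
    ∃ a s : ℕ → ℕ, a 0 = 1 ∧ (∀ i, a i ≤ s i ∧ s i < a (i + 1) ∧ a i + 2 ≤ a (i + 1)) ∧
      ∀ x i, Sel.Good r (a i) (s i) (a (i + 1)) (δ i) x := by
  have hst := fun (i a : ℕ) => step r hr h0 h1 h2 (δ i) (hδ i) a
  choose S A hS1 hS2 hS3 hS4 using hst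
  set a : ℕ → ℕ := fun n => Nat.rec 1 (fun i ai => A i ai) n with ha
  exact ⟨a, fun i => S i (a i), rfl, fun i => ⟨hS1 _ _, hS2 _ _, hS3 _ _⟩,
    fun x i => hS4 i (a i) x⟩

end Pool.Agent.Y920.UC
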