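import Pool.Agent.H534R3.Wave
import Pool.Agent.H534R3.Pos
import Pool.Agent.Y920.UC.Sel2

/-! Adapted from the starting file `Pool/Agent/S15480.lean` to any Hilbert space with a basis. -/

set_option autoImplicit false

open Filter Topology MeasureTheory
open scoped InnerProductSpace ENNReal

namespace Pool.Agent.Y920.UC.Gen

open Pool.Agent.H534R3

variable {H : Type} [NormedAddCommGroup H] [InnerProductSpace ℂ H] [CompleteSpace H]
  (e : HilbertBasis ℕ ℂ H)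

theorem e_total (pos : ℕ × ℤ → ℕ) (hpos : Function.Surjective pos) (ψ : H)
    (h : ∀ k, ⟪e (pos k), ψ⟫_ℂ = 0) : ψ = 0 := by
  have h1 : e.repr ψ = 0 := by
    ext m
    obtain ⟨k, rfl⟩ := hpos m
    rw [e.repr_apply_apply]
    exact h k
  exact (LinearIsometryEquiv.map_eq_zero_iff e.repr).1 h1

theorem exists_shift (b : ℕ × ℤ → H) (hb : Orthonormal ℂ b)
    (htot : ∀ ψ, (∀ k, ⟪b k, ψ⟫_ℂ = 0) → ψ = 0) :
    ∃ (f : HilbertBasis (ℕ × ℤ) ℂ H) (S : H ≃ₗᵢ[ℂ] H), (∀ k, f k = b k) ∧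
      ∀ j n, S (b (j, n)) = b (j, n + 1) := by
  classical
  have hbot : ∀ c : ℕ × ℤ → H, (∀ ψ, (∀ k, ⟪c k, ψ⟫_ℂ = 0) → ψ = 0) →
      (Submodule.span ℂ (Set.range c))ᗮ = ⊥ := by
    intro c hc
    rw [Submodule.eq_bot_iff]
    intro ψ hψ
    exact hc ψ fun k => (Submodule.mem_orthogonal _ _).1 hψ _ (Submodule.subset_span ⟨k, rfl⟩)
  set c : ℕ × ℤ → H := fun k => b (k.1, k.2 + 1) with hc
  have hco : Orthonormal ℂ c := hb.comp (fun k : ℕ × ℤ => ((k.1, k.2 + 1) : ℕ × ℤ))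
    fun k k' h => by
      rw [Prod.mk.injEq] at h
      exact Prod.ext h.1 (by have := h.2; omega)
  have hct : ∀ ψ, (∀ k, ⟪c k, ψ⟫_ℂ = 0) → ψ = 0 := by
    intro ψ hψ
    refine htot ψ fun k => ?_
    have := hψ (k.1, k.2 - 1)
    simp only [hc, sub_add_cancel] at this
    exact this
  set f := HilbertBasis.mkOfOrthogonalEqBot hb (hbot b htot) with hf
  set f' := HilbertBasis.mkOfOrthogonalEqBot hco (hbot c hct) with hf'
  have hfb : ∀ k, f k = b k := fun k => by rw [hf, HilbertBasis.coe_mkOfOrthogonalEqBot]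
  have hfc : ∀ k, f' k = c k := fun k => by rw [hf', HilbertBasis.coe_mkOfOrthogonalEqBot]
  refine ⟨f, f.repr.trans f'.repr.symm, hfb, fun j n => ?_⟩
  rw [← hfb, LinearIsometryEquiv.trans_apply, f.repr_self, f'.repr_symm_single, hfc]


/-- The squares of the absolute values of the entries. -/
noncomputable def r (x : H ≃ₗᵢ[ℂ] H) (m n : ℕ) : ℝ := ‖⟪e m, x (e n)⟫_ℂ‖ ^ 2

theorem r_hasSum (y : H) (hy : ‖y‖ = 1) : HasSum (fun m => ‖⟪e m, y⟫_ℂ‖ ^ 2) 1 := by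
  have h1 := lp.hasSum_norm (p := 2) (by norm_num) (e.repr y)
  rw [LinearIsometryEquiv.norm_map, hy] at h1
  simpa [e.repr_apply_apply] using h1

theorem r_inv (x : H ≃ₗᵢ[ℂ] H) (m n : ℕ) : r e x m n = ‖⟪e n, (x⁻¹) (e m)⟫_ℂ‖ ^ 2 := by
  have h2 : ⟪e m, x (e n)⟫_ℂ = ⟪x⁻¹ (e m), e n⟫_ℂ := by
    rw [← LinearIsometryEquiv.inner_map_map x (x⁻¹ (e m)) (e n)]
    congr 1
    exact (x.apply_symm_apply _).symm
  rw [r, h2, ← inner_conj_symm, RCLike.norm_conj]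

theorem r_sum1 (x : H ≃ₗᵢ[ℂ] H) (n : ℕ) : HasSum (fun m => r e x m n) 1 := by
  refine r_hasSum e (x (e n)) ?_
  rw [LinearIsometryEquiv.norm_map]
  exact e.orthonormal.1 n

theorem r_sum2 (x : H ≃ₗᵢ[ℂ] H) (n : ℕ) : HasSum (fun m => r e x n m) 1 := by
  simp_rw [r_inv]
  refine r_hasSum e _ ?_
  rw [LinearIsometryEquiv.norm_map]
  exact e.orthonormal.1 n

/-- Good unitaries are conjugate to the shift after a translation. -/
theorem good_conj (S₀ : H ≃ₗᵢ[ℂ] H) (f₀ : HilbertBasis (ℕ × ℤ) ℂ H)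
    (hf₀ : ∀ j n, S₀ (f₀ (j, n)) = f₀ (j, n + 1)) (a s : ℕ → ℕ) (ha0 : a 0 = 1)
    (h : ∀ i, a i ≤ s i ∧ s i < a (i + 1) ∧ a i + 2 ≤ a (i + 1)) :
    ∃ S : H ≃ₗᵢ[ℂ] H, ∀ x : H ≃ₗᵢ[ℂ] H,
      (∀ i, Sel.Good (r e) (a i) (s i) (a (i + 1)) ((1 / 64 * (1 / 4) ^ i) ^ 2) x) →
      IsConj S₀ (S * x) := by
  obtain ⟨pos, P, M, hbij, hposp, hposm, hPd, hMd, hPr, hMr, hinf, hPc, hMc⟩ :=
    Pos.exists_pos a s ha0 h
  have hbo : Orthonormal ℂ (fun k => e (pos k)) := e.orthonormal.comp pos hbij.1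
  obtain ⟨-, S, -, hS⟩ := exists_shift (fun k => e (pos k)) hbo (e_total e pos hbij.2)
  refine ⟨S, fun x hx => ?_⟩
  set δ : ℕ × ℕ → ℝ := fun k => (1 / 64) * (1 / 2) ^ (k.1 + k.2) * (1 / 2) ^ (Nat.pair k.1 k.2) with hδ
  have hδi : ∀ (k : ℕ × ℕ) (i : ℕ), 2 * Nat.pair k.1 k.2 ≤ i →
      1 - (δ k) ^ 2 ≤ 1 - (1 / 64 * (1 / 4 : ℝ) ^ i) ^ 2 := by
    intro k i hi
    have h1 : (1 / 64 * (1 / 4 : ℝ) ^ i) ≤ δ k := by
      simp only [hδ]
      rw [mul_assoc]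
      refine mul_le_mul_of_nonneg_left ?_ (by norm_num)
      rw [← pow_add]
      have h2 : (1 / 4 : ℝ) ^ i = (1 / 2) ^ (2 * i) := by
        rw [pow_mul]
        norm_num
      rw [h2]
      refine pow_le_pow_of_le_one (by norm_num) (by norm_num) ?_
      have h3 := Nat.left_le_pair k.1 k.2
      have h4 := Nat.right_le_pair k.1 k.2
      omega
    have h2 : (0 : ℝ) ≤ 1 / 64 * (1 / 4 : ℝ) ^ i := by positivity
    nlinarith
  have hsum : ∀ (g : ℕ → ℝ) (_ : ∀ m, 0 ≤ g m) (I : Finset ℕ) (Q : Finset (ℕ × ℕ))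
      (q : ℕ × ℕ → ℕ) (_ : ∀ m ∈ I, ∃ k' ∈ Q, q k' = m), ∑ m ∈ I, g m ≤ ∑ k' ∈ Q, g (q k') := by
    classical
    intro g hg I Q q hq
    have h1 : I ⊆ Q.image q := by
      intro m hm
      obtain ⟨k', hk', h2⟩ := hq m hm
      exact Finset.mem_image.2 ⟨k', hk', h2⟩
    refine (Finset.sum_le_sum_of_subset_of_nonneg h1 fun m _ _ => hg m).trans ?_
    exact Finset.sum_image_le_of_nonneg fun m _ => hg m
  obtain ⟨f, hf⟩ := Wave.main_det (fun k => e (pos k)) hbo (e_total e pos hbij.2) S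
    x hS P M hPd hMd hPr hMr hinf δ (fun k => rfl) (by
      intro k
      have h1 := (hx (2 * Nat.pair k.1 k.2)).1
      refine (hδi k _ le_rfl).trans (h1.trans ?_)
      have h2 := hsum (fun m => r e x m (s (2 * Nat.pair k.1 k.2))) (fun m => sq_nonneg _)
        (Finset.Ico (a (2 * Nat.pair k.1 k.2)) (a (2 * Nat.pair k.1 k.2 + 1))) (P k)
        (fun k' => pos (k'.1, (k'.2 : ℤ))) (hPc k)
      refine h2.trans (le_of_eq (Finset.sum_congr rfl fun k' _ => ?_))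
      rw [hposp]
      rfl) (by
      intro k
      have h1 := (hx (2 * Nat.pair k.1 k.2 + 1)).2
      refine (hδi k _ (Nat.le_succ _)).trans (h1.trans ?_)
      have h2 := hsum (fun m => r e x (s (2 * Nat.pair k.1 k.2 + 1)) m) (fun m => sq_nonneg _)
        (Finset.Ico (a (2 * Nat.pair k.1 k.2 + 1)) (a (2 * Nat.pair k.1 k.2 + 1 + 1))) (M k)
        (fun k' => pos (k'.1, -(k'.2 : ℤ))) (hMc k)
      refine h2.trans (le_of_eq (Finset.sum_congr rfl fun k' _ => ?_))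
      rw [hposm, r_inv])
  exact Wave.shift_conj S₀ _ f₀ f hf₀ hf



end Pool.Agent.Y920.UC.Gen
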